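import Pool.Agent.N753.DR.Stm2
import Pool.Agent.N262.DR.Box

set_option autoImplicit false
set_option linter.unusedSectionVars false

/-!
# Project CV: incomplete norm forms, change of coordinates (StmCoreB implies StmCoreV)
-/

namespace Pool.Agent.N328.CV

open NumberField IsDedekindDomain Module Polynomial Pool.Agent.N753.DR

/-- a common denominator -/
theorem exists_den {F : Type} [Field F] [NumberField F] {ι : Type} [Fintype ι] (x : ι → F) :
    ∃ D : ℕ, D ≠ 0 ∧ ∀ i, IsIntegral ℤ ((D : F) * x i) := by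
  classical
  have h1 : ∀ i, ∃ y : ℕ, y ≠ 0 ∧ IsIntegral ℤ ((y : F) * x i) := by
    intro i
    have halg : IsAlgebraic ℤ (x i) := by
      have : IsAlgebraic ℚ (x i) := Algebra.IsAlgebraic.isAlgebraic _
      exact (IsFractionRing.isAlgebraic_iff ℤ ℚ _).mpr this
    obtain ⟨y, hy0, hy⟩ := halg.exists_integral_multiple
    refine ⟨y.natAbs, by omega, ?_⟩
    rcases Int.natAbs_eq y with h | h
    · have e : ((y.natAbs : F)) * x i = y • x i := by
        conv_rhs => rw [h]
        simp
      rw [e]; exact hy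
    · have e : ((y.natAbs : F)) * x i = -(y • x i) := by
        conv_rhs => rw [h]
        simp
      rw [e]; exact hy.neg
  choose y hy0 hy using h1
  refine ⟨∏ i, y i, Finset.prod_ne_zero_iff.mpr fun i _ => hy0 i, fun i => ?_⟩
  rw [← Finset.mul_prod_erase Finset.univ y (Finset.mem_univ i)]
  push_cast
  have e : (y i : F) * (∏ j ∈ Finset.univ.erase i, (y j : F)) * x i =
      ((∏ j ∈ Finset.univ.erase i, y j : ℕ) : F) * ((y i : F) * x i) := by
    push_cast; ring
  rw [e]
  have h2 : IsIntegral ℤ (((∏ j ∈ Finset.univ.erase i, y j : ℕ) : F)) := by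
    have h3 := isIntegral_algebraMap (R := ℤ) (A := F)
      (x := ((∏ j ∈ Finset.univ.erase i, y j : ℕ) : ℤ))
    rwa [eq_intCast, Int.cast_natCast] at h3
  exact h2.mul (hy i)

/-- a primitive element among the linear combinations with natural coefficients -/
theorem exists_prim (K L : Type) [Field K] [NumberField K] [Field L] [NumberField L] [Algebra K L]
    {m : ℕ} (x : Fin m → L) (h : IntermediateField.adjoin K (Set.range x) = ⊤) :
    ∃ n : Fin m → ℕ, IntermediateField.adjoin K {∑ i, (n i : L) * x i} = ⊤ := by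
  classical
  have hfin : FiniteDimensional K L := Module.Finite.of_restrictScalars_finite ℚ K L
  let A := AlgebraicClosure K
  let φ : L →ₐ[K] A := IsAlgClosed.lift
  have hF : Finite (L →ₐ[K] A) := inferInstance
  have : Fintype (L →ₐ[K] A) := Fintype.ofFinite _
  let P : (L →ₐ[K] A) → A[X] := fun ψ => ∑ i : Fin m, C (φ (x i) - ψ (x i)) * X ^ (i : ℕ)
  have hP : ∀ ψ, φ ≠ ψ → P ψ ≠ 0 := by
    intro ψ hne h0
    apply hne
    have h1 : ∀ i, φ (x i) = ψ (x i) := by
      intro i
      have h2 : (P ψ).coeff i = 0 := by rw [h0]; simp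
      simp only [P, finsetSum_coeff, coeff_C_mul, coeff_X_pow] at h2
      rw [Finset.sum_eq_single i] at h2
      · simpa [sub_eq_zero] using h2
      · intro j _ hj
        rw [if_neg (fun h => hj (Fin.ext h.symm)), mul_zero]
      · intro h; exact absurd (Finset.mem_univ _) h
    have h3 : (⊤ : IntermediateField K L) ≤ IntermediateField.adjoin K (Set.range x) := h.ge
    ext z
    have hz : z ∈ IntermediateField.adjoin K (Set.range x) := h3 trivial
    induction hz using IntermediateField.adjoin_induction with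
    | mem z hz => obtain ⟨i, rfl⟩ := hz; exact h1 i
    | algebraMap z => simp
    | add a b _ _ ha hb => rw [map_add, map_add, ha, hb]
    | inv a _ ha => rw [map_inv₀, map_inv₀, ha]
    | mul a b _ _ ha hb => rw [map_mul, map_mul, ha, hb]
  let Q : A[X] := ∏ ψ : {ψ : L →ₐ[K] A // φ ≠ ψ}, P ψ
  have hQ : Q ≠ 0 := Finset.prod_ne_zero_iff.mpr fun ψ _ => hP ψ ψ.2
  obtain ⟨t, ht⟩ : ∃ t : ℕ, Q.eval (t : A) ≠ 0 := by
    by_contra hcon
    push Not at hcon
    apply hQ
    apply Polynomial.eq_zero_of_infinite_isRoot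
    have : (Set.range (Nat.cast : ℕ → A)).Infinite := Set.infinite_range_of_injective
      Nat.cast_injective
    refine this.mono ?_
    rintro _ ⟨t, rfl⟩
    exact hcon t
  refine ⟨fun i => t ^ (i : ℕ), ?_⟩
  rw [Field.primitive_element_iff_algHom_eq_of_eval K A (fun z => IsAlgClosed.splits _) _ φ]
  intro ψ hψ
  by_contra hne
  apply ht
  simp only [Q, eval_prod]
  refine Finset.prod_eq_zero (Finset.mem_univ (⟨ψ, hne⟩ : {ψ : L →ₐ[K] A // φ ≠ ψ})) ?_
  simp only [P, eval_finsetSum, eval_mul, eval_C, eval_pow, eval_X]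
  have h4 : ∑ i : Fin m, (φ (x i) - ψ (x i)) * (t : A) ^ (i : ℕ) =
      φ (∑ i : Fin m, ((t ^ (i : ℕ) : ℕ) : L) * x i) -
        ψ (∑ i : Fin m, ((t ^ (i : ℕ) : ℕ) : L) * x i) := by
    rw [map_sum, map_sum, ← Finset.sum_sub_distrib]
    refine Finset.sum_congr rfl fun i _ => ?_
    rw [map_mul, map_mul, map_natCast, map_natCast]
    push_cast; ring
  rw [h4, sub_eq_zero]
  exact hψ

/-- the linear form with coefficients `γ` -/
noncomputable def Gf (K : Type) {L : Type} [Field K] [Field L] [Algebra K L] {m : ℕ}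
    (γ : Fin m → L) : (Fin m → K) →ₗ[K] L := Fintype.linearCombination K γ

theorem Gf_apply {K L : Type} [Field K] [Field L] [Algebra K L] {m : ℕ} (γ : Fin m → L)
    (x : Fin m → K) : Gf K γ x = ∑ i, algebraMap K L (x i) * γ i := by
  unfold Gf
  rw [Fintype.linearCombination_apply]
  exact Finset.sum_congr rfl fun i _ => Algebra.smul_def _ _

/-- a basis adapted to a linear form, with prescribed independent values -/
theorem exists_basis (K L : Type) [Field K] [Field L] [Algebra K L] [FiniteDimensional K L] {m : ℕ}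
    (G : (Fin m → K) →ₗ[K] L) (T0 : Set L) (hT0 : T0 ⊆ (LinearMap.range G : Set L))
    (hi : LinearIndepOn K id T0) :
    ∃ (b : Basis (Fin m) K (Fin m → K)) (s : ℕ) (ι : Fin s → Fin m),
      s = finrank K (LinearMap.range G) ∧ Function.Injective ι ∧
      LinearIndependent K (fun j => G (b (ι j))) ∧
      ∀ y ∈ T0, ∃ j, G (b (ι j)) = y := by
  classical
  obtain ⟨T, hT1, hT2, hT3, hT4⟩ := exists_linearIndepOn_id_extension hi hT0
  have hlift : ∀ y : T, ∃ x, G x = y := fun y => hT1 y.2
  choose r hr using hlift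
  have hu : LinearIndependent K (fun y : T => (y : L)) := hT4
  have hr1 : LinearIndependent K r := by
    apply LinearIndependent.of_comp G
    have : (⇑G ∘ r) = fun y : T => (y : L) := funext hr
    rw [this]; exact hu
  have hfT : Finite T := hu.finite
  have hfT' : Fintype T := Fintype.ofFinite T
  have hrange : Submodule.span K T = LinearMap.range G := by
    apply le_antisymm
    · rw [Submodule.span_le]; exact hT1
    · exact hT3
  have hcard : Fintype.card T = finrank K (LinearMap.range G) := by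
    rw [← hrange]
    have := finrank_span_eq_card hu
    rw [Subtype.range_coe] at this
    exact this.symm
  have hR : LinearIndepOn K id (Set.range r) := hr1.linearIndepOn_id
  let B := Basis.extend hR
  have hfB : Finite (hR.extend (Set.subset_univ _)) := B.linearIndependent.finite
  have hfB' : Fintype (hR.extend (Set.subset_univ _)) := Fintype.ofFinite _
  have hcB : Fintype.card (hR.extend (Set.subset_univ _)) = Fintype.card (Fin m) := by
    rw [← finrank_eq_card_basis B, finrank_fintype_fun_eq_card]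
  let e := Fintype.equivOfCardEq hcB
  let f : Fin (Fintype.card T) ≃ T := (Fintype.equivFin T).symm
  let g : T → (hR.extend (Set.subset_univ _)) := fun y =>
    ⟨r y, hR.subset_extend _ ⟨y, rfl⟩⟩
  have hb : ∀ y, (B.reindex e) (e (g y)) = r y := by
    intro y
    rw [Basis.reindex_apply, Equiv.symm_apply_apply, Basis.extend_apply_self]
  refine ⟨B.reindex e, Fintype.card T, fun j => e (g (f j)), hcard, ?_, ?_, ?_⟩
  · intro j j' h
    have h1 := e.injective h
    have h2 : r (f j) = r (f j') := congrArg Subtype.val h1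
    exact f.injective (hr1.injective h2)
  · have h1 : (fun j => G ((B.reindex e) (e (g (f j))))) = fun j => ((f j : T) : L) := by
      funext j
      rw [hb, hr]
    rw [h1]
    exact hu.comp f f.injective
  · intro y hy
    refine ⟨f.symm ⟨y, hT2 hy⟩, ?_⟩
    simp only [Equiv.apply_symm_apply]
    rw [hb, hr]

section size

variable {K : Type} [Field K] [NumberField K]

theorem sz_zero' : sz (0 : 𝓞 K) = 0 := by
  apply Nat.eq_zero_of_le_zero
  rw [Pool.Agent.N262.DR.sz_le_iff]
  intro i; simp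

theorem sz_add (x y : 𝓞 K) : sz (x + y) ≤ sz x + sz y := by
  rw [Pool.Agent.N262.DR.sz_le_iff]
  intro i
  have h1 := (Pool.Agent.N262.DR.sz_le_iff (z := x)).mp le_rfl i
  have h2 := (Pool.Agent.N262.DR.sz_le_iff (z := y)).mp le_rfl i
  rw [map_add, Finsupp.add_apply]
  have := abs_add_le ((RingOfIntegers.basis K).repr x i) ((RingOfIntegers.basis K).repr y i)
  push_cast
  linarith

theorem sz_sum {ι : Type} (s : Finset ι) (f : ι → 𝓞 K) : sz (∑ i ∈ s, f i) ≤ ∑ i ∈ s, sz (f i) := by
  classical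
  induction s using Finset.induction_on with
  | empty => simp [sz_zero']
  | insert a s ha ih =>
    rw [Finset.sum_insert ha, Finset.sum_insert ha]
    exact (sz_add _ _).trans (Nat.add_le_add_left ih _)

theorem sz_zsmul (n : ℤ) (x : 𝓞 K) : sz (n • x) ≤ n.natAbs * sz x := by
  rw [Pool.Agent.N262.DR.sz_le_iff]
  intro i
  have h1 := (Pool.Agent.N262.DR.sz_le_iff (z := x)).mp le_rfl i
  rw [map_smul, Finsupp.smul_apply, smul_eq_mul, abs_mul]
  push_cast
  exact mul_le_mul_of_nonneg_left h1 (abs_nonneg _)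

theorem sz_mul_le (a : 𝓞 K) : ∃ A : ℕ, ∀ z : 𝓞 K, sz (a * z) ≤ A * sz z := by
  refine ⟨∑ k, sz (a * RingOfIntegers.basis K k), fun z => ?_⟩
  have h1 : a * z = ∑ k, (RingOfIntegers.basis K).repr z k • (a * RingOfIntegers.basis K k) := by
    conv_lhs => rw [← (RingOfIntegers.basis K).sum_repr z]
    rw [Finset.mul_sum]
    exact Finset.sum_congr rfl fun k _ => by rw [mul_smul_comm]
  rw [h1, Finset.sum_mul]
  refine (sz_sum _ _).trans (Finset.sum_le_sum fun k _ => ?_)
  refine (sz_zsmul _ _).trans ?_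
  rw [mul_comm]
  apply Nat.mul_le_mul_left
  exact Finset.le_sup (f := fun i => ((RingOfIntegers.basis K).repr z i).natAbs)
    (Finset.mem_univ k)

theorem sz_lin {m : ℕ} (a : Fin m → Fin m → 𝓞 K) : ∃ C : ℕ, 1 ≤ C ∧ ∀ (B : ℕ) (c : Fin m → 𝓞 K),
    c ∈ Bx K m B → (fun j => ∑ i, a i j * c i) ∈ Bx K m (C * B) := by
  choose A hA using fun i j => sz_mul_le (a i j)
  refine ⟨1 + ∑ i, ∑ j, A i j, by omega, fun B c hc j => ?_⟩
  refine (sz_sum _ _).trans ?_
  have h1 : ∑ i, sz (a i j * c i) ≤ ∑ i, A i j * B :=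
    Finset.sum_le_sum fun i _ => (hA i j _).trans (Nat.mul_le_mul_left _ (hc i))
  refine h1.trans ?_
  rw [← Finset.sum_mul]
  apply Nat.mul_le_mul_right
  have h2 : ∑ i, A i j ≤ ∑ i, ∑ j, A i j :=
    Finset.sum_le_sum fun i _ => Finset.single_le_sum (f := fun j => A i j)
      (fun _ _ => Nat.zero_le _) (Finset.mem_univ j)
  omega

end size

theorem bad_finite {K : Type} [Field K] [NumberField K] (p : ℕ) (hp : p ≠ 0) :
    {v : HeightOneSpectrum (𝓞 K) | (p : 𝓞 K) ∈ v.asIdeal}.Finite := by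
  have h : {v : HeightOneSpectrum (𝓞 K) | (p : 𝓞 K) ∈ v.asIdeal} ⊆
      {v : HeightOneSpectrum (𝓞 K) | v.asIdeal ∣ Ideal.span {(p : 𝓞 K)}} := by
    intro v hv
    show v.asIdeal ∣ Ideal.span {(p : 𝓞 K)}
    rw [Ideal.dvd_span_singleton]
    exact hv
  refine Set.Finite.subset ?_ h
  apply Ideal.finite_factors
  rw [Ne, Ideal.zero_eq_bot, Ideal.span_singleton_eq_bot]
  exact_mod_cast hp

theorem t (h : StmCoreB) : StmCoreV := by
  classical
  intro K L _ _ _ _ _ m γ hW
  obtain ⟨⟨i0, h0, hgen⟩, hs⟩ := hW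
  have hfin : FiniteDimensional K L := Module.Finite.of_restrictScalars_finite ℚ K L
  have hrg : LinearMap.range (Gf K γ) = Submodule.span K (Set.range γ) := by
    unfold Gf
    exact Fintype.range_linearCombination K γ
  obtain ⟨n, hn⟩ := exists_prim K L (fun i => γ i / γ i0) hgen
  obtain ⟨w1, hw1⟩ : ∃ w1 : L, w1 = ∑ i, (n i : L) * γ i := ⟨_, rfl⟩
  have hw2 : IntermediateField.adjoin K {w1 / γ i0} = ⊤ := by
    rw [← hn, hw1, Finset.sum_div]
    congr 2
    exact Finset.sum_congr rfl fun i _ => by rw [mul_div_assoc]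
  have hγ0 : γ i0 ∈ LinearMap.range (Gf K γ) := by
    rw [hrg]; exact Submodule.subset_span ⟨i0, rfl⟩
  have hγ1 : w1 ∈ LinearMap.range (Gf K γ) := by
    rw [hrg, hw1]
    refine Submodule.sum_mem _ fun i _ => ?_
    have : (n i : L) * γ i = (n i : K) • γ i := by rw [Algebra.smul_def, map_natCast]
    rw [this]
    exact Submodule.smul_mem _ _ (Submodule.subset_span ⟨i, rfl⟩)
  -- the adapted basis
  obtain ⟨b, s, ι, hs', hι, hli, j0, j1, hj0, hj1, hne, hadj⟩ :
      ∃ (b : Basis (Fin m) K (Fin m → K)) (s : ℕ) (ι : Fin s → Fin m),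
      s = finrank K (LinearMap.range (Gf K γ)) ∧ Function.Injective ι ∧
      LinearIndependent K (fun j => Gf K γ (b (ι j))) ∧
      ∃ j0 j1 : Fin m, j0 ∈ Set.range ι ∧ (j1 ∈ Set.range ι ∨ finrank K L = 1) ∧
        Gf K γ (b j0) ≠ 0 ∧
        IntermediateField.adjoin K {Gf K γ (b j1) / Gf K γ (b j0)} = ⊤ := by
    by_cases hc : LinearIndepOn K id ({γ i0, w1} : Set L)
    · obtain ⟨b, s, ι, a1, a2, a3, a4⟩ := exists_basis K L (Gf K γ) {γ i0, w1} (by
        rintro y (rfl | hy)
        · exact hγ0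
        · rw [Set.mem_singleton_iff] at hy; rw [hy]; exact hγ1) hc
      obtain ⟨j0, hj0⟩ := a4 (γ i0) (by simp)
      obtain ⟨j1, hj1⟩ := a4 w1 (by simp)
      exact ⟨b, s, ι, a1, a2, a3, ι j0, ι j1, ⟨j0, rfl⟩, Or.inl ⟨j1, rfl⟩, by rw [hj0]; exact h0,
        by rw [hj0, hj1]; exact hw2⟩
    · obtain ⟨b, s, ι, a1, a2, a3, a4⟩ := exists_basis K L (Gf K γ) {γ i0} (by
        rintro y hy
        rw [Set.mem_singleton_iff] at hy; rw [hy]; exact hγ0)
        (LinearIndepOn.singleton (R := K) (v := id) h0)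
      obtain ⟨j0, hj0⟩ := a4 (γ i0) (by simp)
      have hone : w1 / γ i0 ∈ (⊥ : IntermediateField K L) := by
        by_contra hcon
        apply hc
        have hne : γ i0 ≠ w1 := by
          rintro h
          apply hcon
          rw [← h, div_self h0]; exact one_mem _
        rw [LinearIndepOn.pair_iff id hne]
        intro x y hxy
        simp only [id] at hxy
        have hy : y = 0 := by
          by_contra hy
          apply hcon
          rw [IntermediateField.mem_bot]
          refine ⟨-x / y, ?_⟩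
          have hy' : algebraMap K L y ≠ 0 := by
            rw [Ne, FaithfulSMul.algebraMap_eq_zero_iff]; exact hy
          rw [Algebra.smul_def, Algebra.smul_def] at hxy
          rw [map_div₀, map_neg]
          field_simp
          linear_combination -hxy
        subst hy
        rw [zero_smul, add_zero, smul_eq_zero] at hxy
        exact ⟨hxy.resolve_right h0, rfl⟩
      have hbt : (⊥ : IntermediateField K L) = ⊤ := by
        rw [← hw2, eq_comm, IntermediateField.adjoin_simple_eq_bot_iff]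
        exact hone
      have h1 : finrank K L = 1 := IntermediateField.bot_eq_top_iff_finrank_eq_one.mp hbt
      refine ⟨b, s, ι, a1, a2, a3, ι j0, ι j0, ⟨j0, rfl⟩, Or.inr h1, by rw [hj0]; exact h0, ?_⟩
      rw [hj0, div_self h0, ← hbt, IntermediateField.adjoin_simple_eq_bot_iff]
      exact one_mem _
  -- the denominators
  obtain ⟨D1, hD1, hD1i⟩ := exists_den (F := K)
    (fun q : Fin m × Fin m => b.repr (Pi.single q.1 1) q.2)
  obtain ⟨D2, hD2, hD2i⟩ := exists_den (F := L) (fun j : Fin m => Gf K γ (b j))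
  have hD1K : (D1 : K) ≠ 0 := Nat.cast_ne_zero.mpr hD1
  have hD2L : (D2 : L) ≠ 0 := Nat.cast_ne_zero.mpr hD2
  have hD2K : (D2 : K) ≠ 0 := Nat.cast_ne_zero.mpr hD2
  obtain ⟨a, ha⟩ : ∃ a : Fin m → Fin m → 𝓞 K, ∀ i j, algebraMap (𝓞 K) K (a i j) =
      (D1 : K) * b.repr (Pi.single i 1) j :=
    ⟨fun i j => ⟨_, hD1i (i, j)⟩, fun i j => rfl⟩
  obtain ⟨β, hβ⟩ : ∃ β : Fin m → 𝓞 L, ∀ j, algebraMap (𝓞 L) L (β j) =
      (D2 : L) * Gf K γ (b j) :=
    ⟨fun j => ⟨_, hD2i j⟩, fun j => rfl⟩
  -- the coordinates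
  have hrepr : ∀ (c : Fin m → 𝓞 K) (j : Fin m), algebraMap (𝓞 K) K (∑ i, a i j * c i) =
      (D1 : K) * b.repr (fun i => algebraMap (𝓞 K) K (c i)) j := by
    intro c j
    have h1 : (fun i => algebraMap (𝓞 K) K (c i)) =
        ∑ i, algebraMap (𝓞 K) K (c i) • (Pi.single i (1 : K) : Fin m → K) := by
      funext k
      rw [Finset.sum_apply]
      simp [Pi.single_apply]
    rw [h1, map_sum, map_sum, Finsupp.finsetSum_apply, Finset.mul_sum]
    refine Finset.sum_congr rfl fun i _ => ?_
    rw [map_smul, Finsupp.smul_apply, smul_eq_mul, map_mul, ha]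
    ring
  have hev : ∀ c : Fin m → 𝓞 K, algebraMap (𝓞 L) L (evB K β (fun j => ∑ i, a i j * c i)) =
      ((D1 * D2 : ℕ) : L) * ∑ i, algebraMap K L (algebraMap (𝓞 K) K (c i)) * γ i := by
    intro c
    rw [← Gf_apply γ (fun i => algebraMap (𝓞 K) K (c i))]
    conv_rhs => rw [← b.sum_repr (fun i => algebraMap (𝓞 K) K (c i)), map_sum, Finset.mul_sum]
    show algebraMap (𝓞 L) L (∑ j, algebraMap (𝓞 K) (𝓞 L) (∑ i, a i j * c i) * β j) = _
    rw [map_sum]
    refine Finset.sum_congr rfl fun j _ => ?_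
    rw [map_mul, hβ, map_smul, Algebra.smul_def]
    have h1 : algebraMap (𝓞 L) L (algebraMap (𝓞 K) (𝓞 L) (∑ i, a i j * c i)) =
        algebraMap K L (algebraMap (𝓞 K) K (∑ i, a i j * c i)) := by
      rw [← IsScalarTower.algebraMap_apply, ← IsScalarTower.algebraMap_apply (𝓞 K) K L]
    rw [h1, hrepr, map_mul, map_natCast]
    push_cast
    ring
  obtain ⟨Bad0, hBad0⟩ := h K L m β j0 j1 (by
      intro h0'
      have h1 := hβ j0
      rw [h0', map_zero] at h1
      exact (mul_ne_zero hD2L hne) h1.symm) (by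
      show IntermediateField.adjoin K {algebraMap (𝓞 L) L (β j1) / algebraMap (𝓞 L) L (β j0)} = ⊤
      rw [hβ, hβ, mul_div_mul_left _ _ hD2L]; exact hadj) s ι hι hj0 hj1 (by
      have h1 : (fun j => algebraMap (𝓞 L) L (β (ι j))) =
          fun j => (D2 : K) • Gf K γ (b (ι j)) := by
        funext j
        rw [hβ, Algebra.smul_def, map_natCast]
      show LinearIndependent K (fun j => algebraMap (𝓞 L) L (β (ι j)))
      rw [h1]
      exact hli.units_smul (fun _ => Units.mk0 (D2 : K) hD2K)) (by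
      rw [hs', hrg]; exact hs)
  refine ⟨Bad0 ∪ (bad_finite (K := K) (D1 * D2) (Nat.mul_ne_zero hD1 hD2)).toFinset,
    fun Bad hBad κ hκ => ?_⟩
  have hkpos : 0 < (finrank K L : ℝ) := by
    have : 0 < finrank K L := Module.finrank_pos
    exact_mod_cast this
  obtain ⟨ν, C, hν, hC⟩ := hBad0 Bad (fun v hv => hBad (Finset.mem_union_left _ hv))
    (min κ (finrank K L)) (lt_min hκ hkpos)
  obtain ⟨C0, hC0, hsz⟩ := sz_lin a
  refine ⟨ν, C * (C0 : ℝ) ^ ((finrank ℚ K : ℝ) * m - ν), hν, fun B hB => ?_⟩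
  have hC0B : 1 ≤ C0 * B := Nat.one_le_iff_ne_zero.mpr (Nat.mul_ne_zero (by omega) (by omega))
  have h2 := hC (C0 * B) hC0B
  have h3 : C * (C0 : ℝ) ^ ((finrank ℚ K : ℝ) * m - ν) * (B : ℝ) ^ ((finrank ℚ K : ℝ) * m - ν) =
      C * ((C0 * B : ℕ) : ℝ) ^ ((finrank ℚ K : ℝ) * m - ν) := by
    rw [mul_assoc, ← Real.mul_rpow (Nat.cast_nonneg _) (Nat.cast_nonneg _)]
    push_cast
    rfl
  rw [h3]
  refine le_trans ?_ h2
  refine Nat.cast_le.mpr ?_
  refine Set.ncard_le_ncard_of_injOn (fun (c : Fin m → 𝓞 K) (j : Fin m) => ∑ i, a i j * c i)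
    ?_ ?_ ?_
  · rintro c ⟨hc, W, hW1, hW2⟩
    refine ⟨hsz B c hc, W, ?_, ?_⟩
    · intro v hv w hw hmem
      apply hW1 v hv w hw
      have hDv : ((D1 * D2 : ℕ) : 𝓞 K) ∉ v.asIdeal := by
        intro hcon
        apply hv
        apply hBad
        apply Finset.mem_union_right
        rw [Set.Finite.mem_toFinset]
        exact hcon
      have hDw : ((D1 * D2 : ℕ) : 𝓞 L) ∉ w.asIdeal := by
        intro hcon
        apply hDv
        rw [hw.over, Ideal.mem_comap, map_natCast]
        exact hcon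
      have hval1 : w.valuation L (algebraMap (𝓞 L) L ((D1 * D2 : ℕ) : 𝓞 L)) = 1 := by
        apply le_antisymm
        · exact w.valuation_le_one _
        · rw [← not_lt, HeightOneSpectrum.valuation_lt_one_iff_mem]
          exact hDw
      have hval2 : w.valuation L (algebraMap (𝓞 L) L (evB K β (fun j => ∑ i, a i j * c i))) < 1 := by
        rw [HeightOneSpectrum.valuation_lt_one_iff_mem]
        exact hmem
      rw [hev, map_mul] at hval2
      have hcast : algebraMap (𝓞 L) L ((D1 * D2 : ℕ) : 𝓞 L) = ((D1 * D2 : ℕ) : L) :=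
        map_natCast _ _
      rw [← hcast, hval1, one_mul] at hval2
      exact hval2
    · refine hW2.trans ?_
      have hlog0 : 0 ≤ Real.log B := Real.log_nonneg (by exact_mod_cast hB)
      have hlog : Real.log B ≤ Real.log ((C0 * B : ℕ) : ℝ) := by
        apply Real.log_le_log (by exact_mod_cast hB)
        have : B ≤ C0 * B := Nat.le_mul_of_pos_left _ hC0
        exact_mod_cast this
      have hn0 : (0 : ℝ) ≤ finrank ℚ K := Nat.cast_nonneg _
      have hmin1 : min κ (finrank K L : ℝ) ≤ κ := min_le_left _ _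
      have hmin2 : min κ (finrank K L : ℝ) ≤ finrank K L := min_le_right _ _
      calc ((finrank K L : ℝ) - κ) * ((finrank ℚ K : ℝ) * Real.log B)
          ≤ ((finrank K L : ℝ) - min κ (finrank K L : ℝ)) * ((finrank ℚ K : ℝ) * Real.log B) :=
            mul_le_mul_of_nonneg_right (by linarith) (mul_nonneg hn0 hlog0)
        _ ≤ ((finrank K L : ℝ) - min κ (finrank K L : ℝ)) *
              ((finrank ℚ K : ℝ) * Real.log ((C0 * B : ℕ) : ℝ)) :=
            mul_le_mul_of_nonneg_left (mul_le_mul_of_nonneg_left hlog hn0) (by linarith)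
  · intro c _ c' _ hcc
    have h4 : (fun i => algebraMap (𝓞 K) K (c i)) = fun i => algebraMap (𝓞 K) K (c' i) := by
      apply b.repr.injective
      ext j
      have h5 := hrepr c j
      have h6 := hrepr c' j
      have h7 : (∑ i, a i j * c i : 𝓞 K) = ∑ i, a i j * c' i := congrFun hcc j
      rw [h7, h6] at h5
      exact (mul_left_cancel₀ hD1K h5).symm
    funext i
    have h5 := congrFun h4 i
    exact RingOfIntegers.ext h5
  · exact (Pool.Agent.N262.DR.Bx_finite (K := K) m (C0 * B)).subset fun c hc => hc.1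

end Pool.Agent.N328.CV
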